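import Mathlib
import Pool.Agent.R627.LaurentF4
import Pool.Agent.R627.Twisted

/-!
# A sharply 3-transitive group of homeomorphisms without a suitable group topology
-/

set_option autoImplicit false
set_option linter.style.haveILetI false

namespace Pool.Agent.Results.MP_3e0647_al.NoTopology

open Topology Filter Set Pool.Agent.R627.LaurentF4 Pool.Agent.R627.Twisted

/-! ## Characters of order two of an Abelian group -/

/-- If no product of a nonempty finite set of the elements `a k` is a square, then some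
homomorphism to the group of order two is nontrivial at all `a k`. -/
theorem exists_char {A : Type*} [CommGroup A] (a : ℕ → A)
    (h : ∀ s : Finset ℕ, s.Nonempty → ∀ b : A, ∏ i ∈ s, a i ≠ b * b) :
    ∃ e : A →* C2, ∀ k, e (a k) = Multiplicative.ofAdd 1 := by
  classical
  let H : Subgroup A := (powMonoidHom 2 : A →* A).range
  let V := Additive (A ⧸ H)
  letI : Module (ZMod 2) V := AddCommGroup.zmodModule (fun x => by
    obtain ⟨x, rfl⟩ := Additive.ofMul.surjective x
    obtain ⟨x, rfl⟩ := QuotientGroup.mk_surjective x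
    have h1 : ((x : A ⧸ H)) ^ 2 = 1 := by
      rw [← QuotientGroup.mk_pow, QuotientGroup.eq_one_iff]
      exact ⟨x, rfl⟩
    exact congrArg Additive.ofMul h1)
  let v : ℕ → V := fun k => Additive.ofMul ((a k : A ⧸ H))
  have hv : LinearIndependent (ZMod 2) v := by
    rw [linearIndependent_iff']
    intro s g hg
    by_contra hcon
    push Not at hcon
    obtain ⟨i, hi, hgi⟩ := hcon
    have h1 : ∀ z : ZMod 2, z ≠ 0 → z = 1 := by decide
    have h2 : ∑ i ∈ s.filter (fun i => g i ≠ 0), v i = 0 := by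
      rw [← hg, Finset.sum_filter]
      apply Finset.sum_congr rfl
      intro j _
      split_ifs with hj
      · rw [h1 _ hj, one_smul]
      · rw [not_ne_iff.mp hj, zero_smul]
    have h3 : ((∏ i ∈ s.filter (fun i => g i ≠ 0), a i : A) : A ⧸ H) = 1 := by
      have h4 : Additive.ofMul ((∏ i ∈ s.filter (fun i => g i ≠ 0), a i : A) : A ⧸ H) =
          ∑ i ∈ s.filter (fun i => g i ≠ 0), v i := by
        rw [QuotientGroup.mk_prod, ofMul_prod]
      rw [h2] at h4
      exact Additive.ofMul.injective h4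
    rw [QuotientGroup.eq_one_iff] at h3
    obtain ⟨b, hb⟩ := h3
    refine h (s.filter (fun i => g i ≠ 0)) ⟨i, Finset.mem_filter.mpr ⟨hi, hgi⟩⟩ b ?_
    rw [← hb, ← sq]
    rfl
  obtain ⟨f, hf⟩ := LinearMap.exists_extend
    ((Module.Basis.span hv).constr (ZMod 2) (fun _ => (1 : ZMod 2)))
  have hf1 : ∀ k, f (v k) = 1 := by
    intro k
    have h1 : f (v k) = (f ∘ₗ (Submodule.span (ZMod 2) (range v)).subtype)
        (Module.Basis.span hv k) := by
      rw [LinearMap.comp_apply, Submodule.subtype_apply, Module.Basis.span_apply]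
    rw [h1, hf, Module.Basis.constr_basis]
  let e0 : (A ⧸ H) →* C2 := AddMonoidHom.toMultiplicativeRight f.toAddMonoidHom
  refine ⟨e0.comp (QuotientGroup.mk' H), fun k => ?_⟩
  exact congrArg Multiplicative.ofAdd (hf1 k)

/-! ## The units -/

/-- The odd exponents. -/
def ex (k : ℕ) : ℤ := 2 * k + 1

/-- A primitive element. -/
noncomputable def c : F4 := exists_sq_ne.choose

theorem c_ne : c ^ 2 ≠ c := exists_sq_ne.choose_spec

theorem c_ne_zero : c ≠ 0 := fun h => c_ne (by rw [h]; ring)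

theorem s_ne_zero : c + c ^ 2 ≠ 0 := fun h => c_ne (by
  have := add_eq_zero_iff_eq_neg.mp h
  have h2 : c ^ 2 + c ^ 2 = 0 := add_self _
  have h3 := add_eq_zero_iff_eq_neg.mp h2
  rw [h3, ← this])

/-- The elements `1 + c t^k`. -/
noncomputable def x (k : ℕ) : K := 1 + mono (ex k) c

theorem co_one (n : ℤ) : co 1 n = if n = 0 then 1 else 0 := by
  classical
  rw [one_eq, co_mono]

theorem x_ne_zero (k : ℕ) : x k ≠ 0 := by
  classical
  intro h
  have h1 := congrArg (fun y => co y 0) h
  simp only [x, co_add, co_one, co_mono, co_zero, if_true] at h1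
  rw [if_neg (by unfold ex; omega), add_zero] at h1
  exact one_ne_zero h1

/-- The units. -/
noncomputable def u (k : ℕ) : Kˣ := Units.mk0 (x k) (x_ne_zero k)

/-- The norm map of the involution. -/
noncomputable def Nm : Kˣ →* Kˣ where
  toFun y := y * Units.map (sg : K →* K) y
  map_one' := by rw [map_one, mul_one]
  map_mul' y z := by rw [map_mul]; exact mul_mul_mul_comm _ _ _ _

theorem Nm_sg (y : Kˣ) : Nm (Units.map (sg : K →* K) y) = Nm y := by
  show Units.map (sg : K →* K) y * Units.map (sg : K →* K) (Units.map (sg : K →* K) y) =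
    y * Units.map (sg : K →* K) y
  have h1 : Units.map (sg : K →* K) (Units.map (sg : K →* K) y) = y := by
    apply Units.ext
    exact sg_sg _
  rw [h1, mul_comm]

theorem Nm_u (k : ℕ) : ((Nm (u k) : Kˣ) : K) =
    1 + mono (ex k) (c + c ^ 2) + mono (ex k + ex k) (c * c ^ 2) := by
  show x k * sg (x k) = _
  have h1 : sg (x k) = 1 + mono (ex k) (c ^ 2) := by
    rw [x, map_add, map_one, sg_mono]
  have h2 : mono (ex k) (c + c ^ 2) = mono (ex k) c + mono (ex k) (c ^ 2) := by
    exact map_add (HahnSeries.single.addMonoidHom (Γ := ℤ) (R := F4) (ex k)) c (c ^ 2)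
  rw [h1, x, h2, ← mono_mul]
  ring

theorem norm_mono_le (n : ℤ) (d : F4) : ‖mono n d‖ ≤ (2 : ℝ) ^ (-n) := by
  classical
  rw [norm_le_iff]
  intro m hm
  rw [co_mono, if_neg (ne_of_lt hm)]

theorem norm_add_le_of {y z : K} {r : ℝ} (hy : ‖y‖ ≤ r) (hz : ‖z‖ ≤ r) : ‖y + z‖ ≤ r :=
  (norm_add_le_max y z).trans (max_le hy hz)

theorem pow_anti {m n : ℤ} (h : m ≤ n) : (2 : ℝ) ^ (-n) ≤ 2 ^ (-m) :=
  zpow_le_zpow_right₀ (by norm_num) (by omega)

theorem norm_Nm_u_sub (k : ℕ) : ‖((Nm (u k) : Kˣ) : K) - 1‖ ≤ (2 : ℝ) ^ (-(ex k)) := by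
  rw [Nm_u, add_assoc, add_sub_cancel_left]
  refine norm_add_le_of (norm_mono_le _ _) ((norm_mono_le _ _).trans (pow_anti ?_))
  unfold ex
  omega

theorem norm_le_one_of {y : K} {m : ℤ} (hm : 0 ≤ m) (hy : ‖y - 1‖ ≤ (2 : ℝ) ^ (-m)) :
    ‖y‖ ≤ 1 := by
  have h1 : y = (y - 1) + 1 := by ring
  rw [h1]
  refine norm_add_le_of (hy.trans ?_) (by rw [norm_one])
  have := pow_anti hm
  simpa using this

theorem norm_prod_sub (m : ℤ) (hm : 0 ≤ m) (s : Finset ℕ) (y : ℕ → K)
    (hy : ∀ i ∈ s, ‖y i - 1‖ ≤ (2 : ℝ) ^ (-m)) : ‖∏ i ∈ s, y i - 1‖ ≤ (2 : ℝ) ^ (-m) := by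
  classical
  induction s using Finset.induction_on with
  | empty =>
    rw [Finset.prod_empty, sub_self, norm_zero]
    positivity
  | insert a s ha ih =>
    rw [Finset.prod_insert ha]
    have h1 : y a * ∏ i ∈ s, y i - 1 = y a * (∏ i ∈ s, y i - 1) + (y a - 1) := by ring
    rw [h1]
    have h2 := hy a (Finset.mem_insert_self a s)
    refine norm_add_le_of ?_ h2
    rw [norm_mul]
    calc ‖y a‖ * ‖∏ i ∈ s, y i - 1‖ ≤ 1 * (2 : ℝ) ^ (-m) := by
          gcongr
          · exact norm_le_one_of hm h2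
          · exact ih fun i hi => hy i (Finset.mem_insert_of_mem hi)
      _ = _ := one_mul _

theorem not_square (s : Finset ℕ) (hs : s.Nonempty) (b : Kˣ) : ∏ i ∈ s, Nm (u i) ≠ b * b := by
  classical
  intro h
  set k := s.min' hs with hk
  have hks : k ∈ s := s.min'_mem hs
  have h1 : ((∏ i ∈ s, Nm (u i) : Kˣ) : K) =
      ((Nm (u k) : Kˣ) : K) * ∏ i ∈ s.erase k, ((Nm (u i) : Kˣ) : K) := by
    rw [← Finset.mul_prod_erase s _ hks, Units.val_mul, Units.coe_prod]
  have hexk : 0 ≤ ex k := by unfold ex; omega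
  have h2 : ‖∏ i ∈ s.erase k, ((Nm (u i) : Kˣ) : K) - 1‖ ≤ (2 : ℝ) ^ (-(ex k + 1)) := by
    refine norm_prod_sub _ (by omega) _ _ fun i hi => ?_
    refine (norm_Nm_u_sub i).trans (pow_anti ?_)
    have h3 : k ≤ i := s.min'_le i (Finset.mem_of_mem_erase hi)
    have h4 : i ≠ k := Finset.ne_of_mem_erase hi
    have h5 : (k : ℤ) + 1 ≤ i := by
      have : k + 1 ≤ i := by omega
      exact_mod_cast this
    unfold ex
    omega
  set r := ∏ i ∈ s.erase k, ((Nm (u i) : Kˣ) : K) with hr
  have h3 : ‖((Nm (u k) : Kˣ) : K) * r - (1 + mono (ex k) (c + c ^ 2))‖ ≤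
      (2 : ℝ) ^ (-(ex k + 1)) := by
    have h4 : ((Nm (u k) : Kˣ) : K) * r - (1 + mono (ex k) (c + c ^ 2)) =
        ((Nm (u k) : Kˣ) : K) * (r - 1) + mono (ex k + ex k) (c * c ^ 2) := by
      rw [Nm_u]
      ring
    rw [h4]
    refine norm_add_le_of ?_ ((norm_mono_le _ _).trans (pow_anti (by unfold ex; omega)))
    rw [norm_mul]
    calc ‖((Nm (u k) : Kˣ) : K)‖ * ‖r - 1‖ ≤ 1 * (2 : ℝ) ^ (-(ex k + 1)) := by
          gcongr
          exact norm_le_one_of hexk (norm_Nm_u_sub k)
      _ = _ := one_mul _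
  have h5 := (norm_le_iff _ _).mp h3 (ex k) (by omega)
  rw [← h1, h, Units.val_mul, co_sub, co_sq_odd _ (by exact ⟨k, by unfold ex; ring⟩), co_add,
    co_one, co_mono, if_neg (by unfold ex; omega), if_pos rfl, zero_add, zero_sub,
    neg_eq_zero] at h5
  exact s_ne_zero h5

/-! ## The result -/

/-- The unit group character. -/
noncomputable def e0 : Kˣ →* C2 := (exists_char (fun k => Nm (u k)) not_square).choose

theorem e0_spec (k : ℕ) : e0 (Nm (u k)) = Multiplicative.ofAdd 1 :=
  (exists_char (fun k => Nm (u k)) not_square).choose_spec k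

/-- The twisting data. -/
noncomputable def D : Data K where
  sg := sg
  sg_sg := sg_sg
  continuous_sg := (AddMonoidHomClass.isometry_of_norm sg norm_sg).continuous
  ep := e0.comp Nm
  ep_sg v := by
    show e0 (Nm _) = e0 (Nm v)
    rw [Nm_sg]

theorem tendsto_u : Tendsto (fun k => ((u k : Kˣ) : K)) atTop (𝓝 1) := by
  rw [tendsto_iff_norm_sub_tendsto_zero]
  have h1 : ∀ k : ℕ, ‖((u k : Kˣ) : K) - 1‖ ≤ (1 / 2 : ℝ) ^ k := by
    intro k
    show ‖x k - 1‖ ≤ _
    rw [x, add_sub_cancel_left]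
    refine (norm_mono_le _ _).trans ((pow_anti (m := k) (by unfold ex; omega)).trans ?_)
    rw [zpow_neg, zpow_natCast, ← inv_pow]
    norm_num
  exact squeeze_zero (fun _ => norm_nonneg _) h1
    (tendsto_pow_atTop_nhds_zero_of_lt_one (by norm_num) (by norm_num))

/-- There are a compact Hausdorff space `M` and a group `G` that acts sharply 3-transitively on `M`
by homeomorphisms such that no topology on `G` makes all orbit maps homeomorphisms; in particular
no topology satisfies (i), (ii) and (iii). -/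
theorem result : ∃ (M : Type) (_ : TopologicalSpace M) (G : Type) (_ : Group G)
    (_ : MulAction G M), CompactSpace M ∧ T2Space M ∧
      (∀ g : G, IsHomeomorph fun x : M => g • x) ∧ SharplyThreeTransitive G M ∧
      (¬ ∃ _ : TopologicalSpace G, IsTopologicalGroup G ∧
        (Continuous fun p : G × M3 M => act p.1 p.2) ∧
        ∀ t : M3 M, IsHomeomorph fun g : G => act g t) ∧
      ¬ ∃ _ : TopologicalSpace G, ∀ t : M3 M, IsHomeomorph fun g : G => act g t := by
  classical
  have key := no_topology D (by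
    refine ⟨mono 0 c, fun h => c_ne ?_⟩
    have h0 : sg (mono 0 c) = mono 0 c := h
    rw [sg_mono] at h0
    have h1 := congrArg (fun y => co y 0) h0
    simp only [co_mono, if_true] at h1
    exact h1) u tendsto_u e0_spec
  refine ⟨OnePoint K, inferInstance, Pool.Agent.R627.Twisted.G D, inferInstance, inferInstance,
    inferInstance, inferInstance, isHomeomorph_smul D, sharp D, ?_, key⟩
  rintro ⟨τ, -, -, h⟩
  exact key ⟨τ, h⟩

end Pool.Agent.Results.MP_3e0647_al.NoTopology
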